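import Pool.Agent.LE.StmtsM
import Pool.Agent.Helper54_LE.LYA

/-!
# LYM, row LPR
-/

set_option autoImplicit false

open MeasureTheory ProbabilityTheory Function Filter

open scoped ENNReal BigOperators Topology NNReal

noncomputable section

namespace Pool.Agent.LE.MN.H61

open Pool.Agent.Anderson hiding box mem_box card_box
open Pool.Agent.Loc Pool.Agent.Mob Pool.Agent.Helper54.Bal
  Pool.Agent.Helper96.EXP Pool.Agent.BED Pool.Agent.LE.MN Pool.Agent.LE

theorem meas_gr {d : ℕ} (Λ : Finset (Site d)) (E : ℝ) (x y : Site d) :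
    Measurable fun V : Site d → ℝ => gr V Λ E x y := by
  exact measurable_gr Λ E x y

theorem meas_gmax {d : ℕ} (Λ : Finset (Site d)) (E : ℝ) (S : Finset (Site d)) (y : Site d) :
    Measurable fun V : Site d → ℝ => gmax V Λ E S y := by
  unfold gmax
  refine Measurable.coe_nnreal_real ?_
  classical
  induction S using Finset.induction_on with
  | empty => simpa using measurable_const
  | insert a S ha ih =>
    simp only [Finset.sup_insert]
    exact (meas_gr Λ E a y).nnnorm.sup ih

theorem tail {d : ℕ} {σ : ℝ} (hσ : σ ≠ 0) (Λ : Finset (Site d)) (E : ℝ) (S : Finset (Site d))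
    (y : Site d) {τ : ℝ} (hτ : 0 < τ) :
    PP d (gl σ) {V | τ < gmax V Λ E S y} ≤ ENNReal.ofReal (S.card * (6 * (1 / |σ|)) / τ) := by
  have hν := bddDens_gl hσ
  have hsub : {V : Site d → ℝ | τ < gmax V Λ E S y} ⊆ ⋃ u ∈ S, {V | τ < |gr V Λ E u y|} := by
    intro V hV
    simp only [Set.mem_iUnion, Set.mem_ofPred_eq] at hV ⊢
    by_contra hc
    push Not at hc
    have h1 : (S.sup fun z => ‖gr V Λ E z y‖₊) ≤ ⟨τ, hτ.le⟩ := by
      refine Finset.sup_le fun z hz => ?_
      have := hc z hz
      exact_mod_cast (by simpa using this : ‖gr V Λ E z y‖ ≤ τ)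
    have h2 : gmax V Λ E S y ≤ τ := by
      unfold gmax
      exact_mod_cast h1
    exact absurd hV (not_lt.2 h2)
  calc PP d (gl σ) {V | τ < gmax V Λ E S y} ≤
      PP d (gl σ) (⋃ u ∈ S, {V | τ < |gr V Λ E u y|}) := measure_mono hsub
    _ ≤ ∑ u ∈ S, PP d (gl σ) {V | τ < |gr V Λ E u y|} := measure_biUnion_finset_le _ _
    _ ≤ ∑ _u ∈ S, ENNReal.ofReal (6 * (1 / |σ|) / τ) :=
        Finset.sum_le_sum fun u _ => H54.PP_weak hν _ E u y hτ
    _ = ENNReal.ofReal (S.card * (6 * (1 / |σ|)) / τ) := by
        rw [Finset.sum_const, nsmul_eq_mul, ← ENNReal.ofReal_natCast,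
          ← ENNReal.ofReal_mul (Nat.cast_nonneg _)]
        congr 1
        ring

theorem lpr : LprStmt := by
  intro d σ E N S y hσ
  haveI : IsProbabilityMeasure (PP d (gl σ)) := inferInstance
  set Λ := box (0 : Site d) N with hΛ
  have hs : 0 < |σ| := abs_pos.2 hσ
  set B : ℝ := 1 + 10 / |σ| * S.card with hB
  have hB1 : 1 ≤ B := by
    have : 0 ≤ 10 / |σ| * (S.card : ℝ) := by positivity
    linarith
  have hB0 : 0 < B := by linarith
  set g : (Site d → ℝ) → ℝ := fun V => gmax V Λ E S y with hg
  have hgm : Measurable g := meas_gmax Λ E S y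
  have hg0 : ∀ V, 0 ≤ g V := fun V => NNReal.coe_nonneg _
  set f : (Site d → ℝ) → ℝ := fun V => max (Real.log (g V / B)) 0 with hf
  have hfm : Measurable f := (Real.measurable_log.comp (hgm.div_const B)).max measurable_const
  have h1 : ∀ V, ENNReal.ofReal (-FD V Λ E S y) ≤ ENNReal.ofReal (Real.log B) +
      ENNReal.ofReal (f V) := by
    intro V
    rw [← ENNReal.ofReal_add (Real.log_nonneg hB1) (le_max_right _ _)]
    refine ENNReal.ofReal_le_ofReal ?_
    unfold FD
    rw [neg_neg]
    change Real.log (g V) ≤ _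
    rcases (hg0 V).eq_or_lt with h0 | h0
    · rw [← h0, Real.log_zero]
      exact add_nonneg (Real.log_nonneg hB1) (le_max_right _ _)
    · have h2 : Real.log (g V) = Real.log B + Real.log (g V / B) := by
        rw [Real.log_div h0.ne' hB0.ne']
        ring
      rw [h2]
      gcongr
      exact le_max_left _ _
  have h2 : ∫⁻ V, ENNReal.ofReal (f V) ∂(PP d (gl σ)) ≤ ENNReal.ofReal 1 := by
    have hf0 : 0 ≤ᵐ[PP d (gl σ)] f := Eventually.of_forall fun V => le_max_right _ _
    rw [lintegral_eq_lintegral_meas_lt _ hf0 hfm.aemeasurable]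
    calc ∫⁻ t in Set.Ioi 0, PP d (gl σ) {V | t < f V}
        ≤ ∫⁻ t in Set.Ioi (0 : ℝ), ENNReal.ofReal (Real.exp (-t)) := by
          refine setLIntegral_mono' measurableSet_Ioi fun t ht => ?_
          have ht0 : (0 : ℝ) < t := ht
          have hsub : {V : Site d → ℝ | t < f V} ⊆ {V | B * Real.exp t < gmax V Λ E S y} := by
            intro V hV
            simp only [Set.mem_ofPred_eq] at hV ⊢
            have h3 : t < Real.log (g V / B) := by
              rcases lt_max_iff.1 hV with h | h
              · exact h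
              · exact absurd h (not_lt.2 ht0.le)
            have h4 : 0 < g V / B := by
              rcases (div_nonneg (hg0 V) hB0.le).eq_or_lt with h | h
              · rw [← h, Real.log_zero] at h3
                exact absurd h3 (not_lt.2 ht0.le)
              · exact h
            have h5 := (Real.lt_log_iff_exp_lt h4).1 h3
            have h6 := (lt_div_iff₀ hB0).1 h5
            linarith [mul_comm B (Real.exp t)]
          refine (measure_mono hsub).trans ((tail hσ Λ E S y (by positivity)).trans ?_)
          refine ENNReal.ofReal_le_ofReal ?_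
          rw [Real.exp_neg, div_le_iff₀ (by positivity)]
          have h7 : (Real.exp t)⁻¹ * (B * Real.exp t) = B := by
            field_simp
          rw [h7, hB]
          have h8 : (S.card : ℝ) * (6 * (1 / |σ|)) ≤ 10 / |σ| * S.card := by
            have : 0 ≤ (S.card : ℝ) * (1 / |σ|) := by positivity
            have e : 10 / |σ| * (S.card : ℝ) = 10 * ((S.card : ℝ) * (1 / |σ|)) := by ring
            rw [e]
            linarith
          linarith
      _ = ENNReal.ofReal 1 := by
          rw [← ofReal_integral_eq_lintegral_ofReal]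
          · rw [integral_exp_neg_Ioi_zero]
          · exact integrableOn_exp_neg_Ioi 0
          · exact Eventually.of_forall fun t => (Real.exp_pos _).le
  calc ∫⁻ V, ENNReal.ofReal (-FD V Λ E S y) ∂(PP d (gl σ))
      ≤ ∫⁻ V, (ENNReal.ofReal (Real.log B) + ENNReal.ofReal (f V)) ∂(PP d (gl σ)) :=
        lintegral_mono h1
    _ = ENNReal.ofReal (Real.log B) + ∫⁻ V, ENNReal.ofReal (f V) ∂(PP d (gl σ)) := by
        rw [lintegral_add_left measurable_const, lintegral_const, measure_univ, mul_one]
    _ ≤ ENNReal.ofReal (Real.log B) + ENNReal.ofReal 1 := by gcongr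
    _ = ENNReal.ofReal (1 + Real.log B) := by
        rw [← ENNReal.ofReal_add (Real.log_nonneg hB1) zero_le_one, add_comm]

end Pool.Agent.LE.MN.H61
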