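import Pool.Agent.LE.StmtsM

/-!
# LYM, row WIN
-/

set_option autoImplicit false

open MeasureTheory ProbabilityTheory Function Filter

open scoped ENNReal BigOperators Topology NNReal

noncomputable section

namespace Pool.Agent.LE.MN.H61

open Pool.Agent.LE.MN

theorem sin_pos' {θ : ℝ} (h : θ ∈ Set.Ioo 0 (2 * Real.pi)) : 0 < Real.sin (θ / 2) :=
  Real.sin_pos_of_pos_of_lt_pi (by linarith [h.1]) (by linarith [h.2])

theorem cE_deriv (E₀ η θ : ℝ) (h : θ ∈ Set.Ioo 0 (2 * Real.pi)) :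
    HasDerivAt (cE E₀ η) (η / (2 * Real.sin (θ / 2) ^ 2)) θ := by
  have hs := (sin_pos' h).ne'
  have h1 : HasDerivAt (fun t : ℝ => t / 2) (1 / 2) θ := (hasDerivAt_id θ).div_const 2
  have hc : HasDerivAt (fun t : ℝ => Real.cos (t / 2)) (-Real.sin (θ / 2) * (1 / 2)) θ := h1.cos
  have hsn : HasDerivAt (fun t : ℝ => Real.sin (t / 2)) (Real.cos (θ / 2) * (1 / 2)) θ := h1.sin
  have h2 := ((hc.div hsn hs).const_mul η).const_sub E₀
  unfold cE
  refine h2.congr_deriv ?_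
  have h3 := Real.sin_sq_add_cos_sq (θ / 2)
  field_simp
  linear_combination η * h3

theorem cE_sq (E₀ η θ : ℝ) (hη : 0 < η) (h : θ ∈ Set.Ioo 0 (2 * Real.pi)) :
    η / (2 * Real.sin (θ / 2) ^ 2) = (η ^ 2 + (cE E₀ η θ - E₀) ^ 2) / (2 * η) := by
  have hs := (sin_pos' h).ne'
  have h3 := Real.sin_sq_add_cos_sq (θ / 2)
  unfold cE
  field_simp
  linear_combination (-(η ^ 2)) * h3

theorem cE_inj (E₀ η : ℝ) (hη : 0 < η) : Set.InjOn (cE E₀ η) (Set.Ioo 0 (2 * Real.pi)) := by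
  intro a ha b hb hab
  have hsa := (sin_pos' ha).ne'
  have hsb := (sin_pos' hb).ne'
  unfold cE at hab
  have h1 : Real.cos (a / 2) / Real.sin (a / 2) = Real.cos (b / 2) / Real.sin (b / 2) := by
    have h2 : η * (Real.cos (a / 2) / Real.sin (a / 2)) =
        η * (Real.cos (b / 2) / Real.sin (b / 2)) := by linarith
    exact mul_left_cancel₀ hη.ne' h2
  rw [div_eq_div_iff hsa hsb] at h1
  have h2 : Real.sin (a / 2 - b / 2) = 0 := by
    rw [Real.sin_sub]
    linarith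
  have h3 := (Real.sin_eq_zero_iff_of_lt_of_lt (by linarith [ha.1, hb.2]) (by linarith [ha.2, hb.1])).1 h2
  linarith

theorem cE_surj (E₀ η : ℝ) (hη : 0 < η) (E : ℝ) : E ∈ cE E₀ η '' Set.Ioo 0 (2 * Real.pi) := by
  refine ⟨2 * (Real.pi / 2 - Real.arctan ((E₀ - E) / η)), ⟨?_, ?_⟩, ?_⟩
  · have := Real.arctan_lt_pi_div_two ((E₀ - E) / η)
    linarith
  · have := Real.neg_pi_div_two_lt_arctan ((E₀ - E) / η)
    linarith
  · unfold cE
    rw [show 2 * (Real.pi / 2 - Real.arctan ((E₀ - E) / η)) / 2 =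
      Real.pi / 2 - Real.arctan ((E₀ - E) / η) by ring, Real.cos_pi_div_two_sub,
      Real.sin_pi_div_two_sub, ← Real.tan_eq_sin_div_cos, Real.tan_arctan]
    field_simp
    ring

theorem win : WinStmt := by
  intro γ E₀ η D hη hD
  set F : ℝ → ℝ≥0∞ := Set.indicator (Set.Icc (E₀ - D) (E₀ + D)) (fun E => ENNReal.ofReal (γ E))
    with hF
  have himg : cE E₀ η '' Set.Ioo 0 (2 * Real.pi) = Set.univ :=
    Set.eq_univ_of_forall (cE_surj E₀ η hη)
  have h1 : ∫⁻ E in Set.Icc (E₀ - D) (E₀ + D), ENNReal.ofReal (γ E) =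
      ∫⁻ E in cE E₀ η '' Set.Ioo 0 (2 * Real.pi), F E := by
    rw [himg, Measure.restrict_univ, hF, lintegral_indicator measurableSet_Icc]
  rw [h1, lintegral_image_eq_lintegral_abs_deriv_mul measurableSet_Ioo
    (fun θ hθ => (cE_deriv E₀ η θ hθ).hasDerivWithinAt) (cE_inj E₀ η hη)]
  rw [← lintegral_const_mul' _ _ ENNReal.ofReal_ne_top]
  refine setLIntegral_mono' measurableSet_Ioo ?_
  intro θ hθ
  by_cases hE : cE E₀ η θ ∈ Set.Icc (E₀ - D) (E₀ + D)
  · have h2 : F (cE E₀ η θ) = ENNReal.ofReal (γ (cE E₀ η θ)) := by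
      rw [hF, Set.indicator_of_mem hE]
    rw [h2]
    gcongr
    rw [abs_of_nonneg (by positivity), cE_sq E₀ η θ hη hθ]
    have h3 : (cE E₀ η θ - E₀) ^ 2 ≤ D ^ 2 := by
      apply sq_le_sq'
      · linarith [hE.1]
      · linarith [hE.2]
    gcongr
  · have h2 : F (cE E₀ η θ) = 0 := by
      rw [hF, Set.indicator_of_notMem hE]
    rw [h2, mul_zero]
    simp

end Pool.Agent.LE.MN.H61
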